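import Pool.Agent.Gabow87.GR.G5
import Pool.Agent.Gabow87.Three

/-!
# Rank at most five
-/

set_option autoImplicit false

namespace Pool.Agent.Gabow87

open GR

theorem list_nodup_of_card {α : Type*} [DecidableEq α] (l : List α)
    (h : l.length ≤ l.toFinset.card) : l.Nodup := by
  rw [← Multiset.coe_nodup, ← Multiset.toFinset_card_eq_card_iff_nodup]
  refine le_antisymm ?_ ?_
  · exact Multiset.toFinset_card_le _
  · simpa using h

theorem getD_inj {α : Type*} (l : List α) (d : α) (h : l.Nodup) (i j : ℕ) (hi : i < l.length)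
    (hj : j < l.length) (hij : l.getD i d = l.getD j d) : i = j := by
  rw [List.getD_eq_getElem _ _ hi, List.getD_eq_getElem _ _ hj] at hij
  exact (List.Nodup.getElem_inj_iff h).mp hij

theorem image_range_getD {α : Type*} [DecidableEq α] (l : List α) (d : α) (s k : ℕ)
    (h : s + k ≤ l.length) :
    ((Finset.range k).image fun i => l.getD (s + i) d) = ((l.drop s).take k).toFinset := by
  ext t
  rw [Finset.mem_image, List.mem_toFinset, List.mem_iff_getElem]
  constructor
  · rintro ⟨i, hi, rfl⟩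
    rw [Finset.mem_range] at hi
    refine ⟨i, by rw [List.length_take, List.length_drop]; omega, ?_⟩
    rw [List.getElem_take, List.getElem_drop, List.getD_eq_getElem _ _ (by omega)]
  · rintro ⟨i, hi, rfl⟩
    rw [List.length_take, List.length_drop] at hi
    refine ⟨i, Finset.mem_range.mpr (by omega), ?_⟩
    rw [List.getElem_take, List.getElem_drop, List.getD_eq_getElem _ _ (by omega)]

theorem image_range_getD' {α : Type*} [DecidableEq α] (l : List α) (d : α) (k : ℕ)
    (h : k ≤ l.length) :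
    ((Finset.range k).image fun i => l.getD i d) = (l.take k).toFinset := by
  have := image_range_getD l d 0 k (by omega)
  simpa using this

theorem exists_four {α : Type*} [DecidableEq α] {P : Finset α → Prop} (hP : SymExch P)
    {B B' : Finset α} (hB : P B) (hB' : P B') (hd : Disjoint B B') (h5 : B'.card = 5) :
    ∃ x ∈ B, ∃ y ∈ B', ∃ m, GCh P B B' m (B.erase x) (B'.erase y) := by
  by_contra hcon
  push Not at hcon
  obtain ⟨Y, hY, hY3⟩ := Finset.exists_subset_card_eq (n := 3) (s := B') (by omega)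
  obtain ⟨x₁, hx1, x₂, hx2, x₃, hx3, n12, n13, n23, y₁, y₂, y₃, hYe, g1, g2, g3⟩ :=
    triple_total hP hB hB' hd hY hY3
  have hc := hP.card_eq hB hB'
  have hXs : ({x₁, x₂, x₃} : Finset α) ⊆ B := by
    intro t
    simp only [Finset.mem_insert, Finset.mem_singleton]
    rintro (rfl | rfl | rfl) <;> assumption
  have hX3 : ({x₁, x₂, x₃} : Finset α).card = 3 := Finset.card_eq_three.mpr
    ⟨x₁, x₂, x₃, n12, n13, n23, rfl⟩
  have hBs : (B \ {x₁, x₂, x₃}).card = 2 := by
    rw [Finset.card_sdiff_of_subset hXs]; omega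
  have hBs' : (B' \ {y₁, y₂, y₃}).card = 2 := by
    rw [← hYe, Finset.card_sdiff_of_subset hY]; omega
  obtain ⟨x₄, x₅, n45, hx45⟩ := Finset.card_eq_two.mp hBs
  obtain ⟨y₄, y₅, m45, hy45⟩ := Finset.card_eq_two.mp hBs'
  have eB : B = {x₁, x₂, x₃, x₄, x₅} := by
    rw [← Finset.union_sdiff_of_subset hXs, hx45]
    simp only [Finset.insert_union, Finset.singleton_union]
  have eB' : B' = {y₁, y₂, y₃, y₄, y₅} := by
    rw [hYe] at hY
    rw [← Finset.union_sdiff_of_subset hY, hy45]
    simp only [Finset.insert_union, Finset.singleton_union]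
  let l : List α := [x₁, x₂, x₃, x₄, x₅, y₁, y₂, y₃, y₄, y₅]
  have hn : l.Nodup := by
    refine list_nodup_of_card l ?_
    have hl : l.toFinset = B ∪ B' := by
      rw [eB, eB']
      ext t
      simp only [l, List.mem_toFinset, List.mem_cons, List.not_mem_nil, Finset.mem_union,
        Finset.mem_insert, Finset.mem_singleton, or_false, or_assoc]
    rw [hl, Finset.card_union_of_disjoint hd, hc, h5]
    rfl
  have tf : ∀ k ≤ 5, ((Finset.range k).image fun i => l.getD i x₁) = (l.take k).toFinset :=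
    fun k hk => image_range_getD' l x₁ k (by change k ≤ 10; omega)
  have tf' : ∀ k ≤ 5, ((Finset.range k).image fun i => l.getD (5 + i) x₁) =
      ((l.drop 5).take k).toFinset :=
    fun k hk => image_range_getD l x₁ 5 k (by change 5 + k ≤ 10; omega)
  have e0 : ((Finset.range 5).image fun i => l.getD i x₁) = B := by
    rw [tf 5 le_rfl, eB]
    simp [l]
  have e1 : ((Finset.range 5).image fun i => l.getD (5 + i) x₁) = B' := by
    rw [tf' 5 le_rfl, eB']
    simp [l]
  refine G5.bad (α := α) ⟨5, 3, fun i => l.getD i x₁, P, ?_, ?_, ?_, ?_, by norm_num, ?_, ?_⟩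
    rfl rfl
  · intro i hi j hj hij
    exact getD_inj l x₁ hn i j hi hj hij
  · intro S T hS hT x hx hxT
    obtain ⟨e, he, heS, -, h1⟩ := hP T S hT hS x hx hxT
    exact ⟨e, he, heS, h1⟩
  · rw [e0]; exact hB
  · rw [e1]; exact hB'
  · intro i hi
    rw [e0, e1, tf (i + 1) (by omega), tf' (i + 1) (by omega)]
    interval_cases i
    · simpa [l] using g1
    · simpa [l] using g2
    · simpa [l] using g3
  · intro i hi j hj m
    rw [e0, e1]
    refine hcon _ ?_ _ ?_ m
    · rw [← e0]; exact Finset.mem_image_of_mem _ (Finset.mem_range.mpr hi)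
    · rw [← e1]
      exact Finset.mem_image_of_mem (fun i => l.getD (5 + i) x₁) (Finset.mem_range.mpr hj)

theorem GCh.card {α : Type*} [DecidableEq α] {P : Finset α → Prop} {B B' : Finset α} :
    ∀ (n : ℕ) (X V : Finset α), GCh P B B' n X V → X.card = n ∧ V.card = n := by
  intro n
  induction n with
  | zero => rintro X V ⟨rfl, rfl⟩; simp
  | succ n ih =>
    rintro X V ⟨-, x, hx, v, hv, h⟩
    obtain ⟨h1, h2⟩ := ih _ _ h
    rw [Finset.card_erase_of_mem hx] at h1
    rw [Finset.card_erase_of_mem hv] at h2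
    have := Finset.card_pos.mpr ⟨x, hx⟩
    have := Finset.card_pos.mpr ⟨v, hv⟩
    omega

theorem gch_one {α : Type*} [DecidableEq α] {P : Finset α → Prop} {B B' : Finset α} {x y : α}
    (h : Good P B B' {x} {y}) : GCh P B B' 1 {x} {y} :=
  ⟨h, x, by simp, y, by simp, by simp, by simp⟩

theorem gch_two {α : Type*} [DecidableEq α] {P : Finset α → Prop} {B B' : Finset α}
    {x₁ x₂ y₁ y₂ : α} (hx : x₁ ≠ x₂) (hy : y₁ ≠ y₂) (h : Good P B B' {x₁} {y₁})
    (h' : Good P B B' {x₁, x₂} {y₁, y₂}) : GCh P B B' 2 {x₁, x₂} {y₁, y₂} := by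
  refine ⟨h', x₂, by simp, y₂, by simp, ?_⟩
  rw [Finset.pair_comm, Finset.pair_comm y₁, Finset.erase_insert (by simpa using hx.symm),
    Finset.erase_insert (by simpa using hy.symm)]
  exact gch_one h

theorem gch_three {α : Type*} [DecidableEq α] {P : Finset α → Prop} {B B' : Finset α}
    {x₁ x₂ x₃ y₁ y₂ y₃ : α} (hx : x₁ ≠ x₂) (hx' : x₁ ≠ x₃) (hx'' : x₂ ≠ x₃) (hy : y₁ ≠ y₂)
    (hy' : y₁ ≠ y₃) (hy'' : y₂ ≠ y₃) (h : Good P B B' {x₁} {y₁})
    (h' : Good P B B' {x₁, x₂} {y₁, y₂}) (h'' : Good P B B' {x₁, x₂, x₃} {y₁, y₂, y₃}) :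
    GCh P B B' 3 {x₁, x₂, x₃} {y₁, y₂, y₃} := by
  refine ⟨h'', x₃, by simp, y₃, by simp, ?_⟩
  have e1 : ({x₁, x₂, x₃} : Finset α).erase x₃ = {x₁, x₂} := by
    ext t
    simp only [Finset.mem_erase, Finset.mem_insert, Finset.mem_singleton]
    grind
  have e2 : ({y₁, y₂, y₃} : Finset α).erase y₃ = {y₁, y₂} := by
    ext t
    simp only [Finset.mem_erase, Finset.mem_insert, Finset.mem_singleton]
    grind
  rw [e1, e2]
  exact gch_two hx hy h h'

/-- chains of length `r - 1` in rank `r ≤ 5` -/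
theorem exists_gch_le_five {α : Type*} [DecidableEq α] {P : Finset α → Prop} (hP : SymExch P)
    {B B' : Finset α} (hB : P B) (hB' : P B') (hd : Disjoint B B') (h5 : B'.card ≤ 5) :
    ∃ X ⊆ B, ∃ V ⊆ B', GCh P B B' (B'.card - 1) X V := by
  have hc := hP.card_eq hB hB'
  rcases Nat.lt_or_ge B'.card 2 with h2 | h2
  · have : B'.card - 1 = 0 := by omega
    rw [this]
    exact ⟨∅, Finset.empty_subset _, ∅, Finset.empty_subset _, rfl, rfl⟩
  rcases Nat.lt_or_ge B'.card 3 with h3 | h3
  · have : B'.card - 1 = 1 := by omega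
    rw [this]
    obtain ⟨y, hy⟩ := Finset.card_pos.mp (show 0 < B'.card by omega)
    have hyB : y ∉ B := fun h => Finset.disjoint_left.mp hd h hy
    obtain ⟨e, he, heB, h1, h4⟩ := hP B B' hB hB' y hy hyB
    refine ⟨{e}, Finset.singleton_subset_iff.mpr he, {y}, Finset.singleton_subset_iff.mpr hy,
      gch_one ⟨?_, ?_⟩⟩
    · rwa [Finset.sdiff_singleton_eq_erase, Finset.union_comm, ← Finset.insert_eq]
    · rwa [Finset.sdiff_singleton_eq_erase, Finset.union_comm, ← Finset.insert_eq]
  rcases Nat.lt_or_ge B'.card 5 with h4 | h4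
  · obtain ⟨Y, hY, hY3⟩ := Finset.exists_subset_card_eq (n := 3) (s := B') (by omega)
    obtain ⟨x₁, hx1, x₂, hx2, x₃, hx3, n12, n13, n23, y₁, y₂, y₃, hYe, g1, g2, g3⟩ :=
      triple_total hP hB hB' hd hY hY3
    rw [hYe] at hY hY3
    obtain ⟨m12, m13, m23⟩ := distinct3 hY3
    rcases Nat.lt_or_ge B'.card 4 with h6 | h6
    · have : B'.card - 1 = 2 := by omega
      rw [this]
      refine ⟨{x₁, x₂}, ?_, {y₁, y₂}, ?_, gch_two n12 m12 g1 g2⟩
      · intro t
        simp only [Finset.mem_insert, Finset.mem_singleton]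
        rintro (rfl | rfl) <;> assumption
      · refine Finset.Subset.trans ?_ hY
        intro t
        simp only [Finset.mem_insert, Finset.mem_singleton]
        tauto
    · have : B'.card - 1 = 3 := by omega
      rw [this]
      refine ⟨{x₁, x₂, x₃}, ?_, {y₁, y₂, y₃}, hY, gch_three n12 n13 n23 m12 m13 m23 g1 g2 g3⟩
      intro t
      simp only [Finset.mem_insert, Finset.mem_singleton]
      rintro (rfl | rfl | rfl) <;> assumption
  · have h5' : B'.card = 5 := by omega
    obtain ⟨x, hx, y, hy, m, hm⟩ := exists_four hP hB hB' hd h5'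
    have h1 := (GCh.card _ _ _ hm).2
    rw [Finset.card_erase_of_mem hy] at h1
    rw [h1]
    exact ⟨_, Finset.erase_subset _ _, _, Finset.erase_subset _ _, hm⟩

/-- **Gabow's conjecture in rank at most five.** -/
theorem gabow_le_five {α : Type*} (M : Matroid α) {r : ℕ} (hr : r ≤ 5) (b b' : Fin r → α)
    (hb : Function.Injective b) (hb' : Function.Injective b')
    (hB : M.IsBase (Set.range b)) (hB' : M.IsBase (Set.range b')) :
    ∃ σ σ' : Equiv.Perm (Fin r), ∀ i : Fin (r + r), M.IsBase (block (b ∘ σ) (b' ∘ σ') i) := by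
  have hA := base_B₀ (b' := b') hb hB
  have hA' := base_B₁ (b := b) hb' hB'
  have hd : Disjoint (B₀ r) (B₁ r) := by
    rw [Finset.disjoint_left]
    intro t ht ht'
    rw [mem_B₀] at ht
    rw [mem_B₁] at ht'
    obtain ⟨j, rfl⟩ := ht
    obtain ⟨j', h⟩ := ht'
    exact absurd h (by simp)
  have h0 : Good (BP M (Sum.elim b b')) (B₀ r) (B₁ r) ∅ ∅ := by
    constructor
    · simpa using hA
    · simpa using hA'
  have hcard : (B₁ r).card = r := by simp [B₁]
  obtain ⟨X, hX, V, hV, hc⟩ :=
    exists_gch_le_five (symExch_BP M (Sum.elim b b')) hA hA' hd (by omega)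
  rw [hcard] at hc
  obtain ⟨x, y, hxi, hyi, -, -, hm⟩ := GCh.seq h0 (r - 1) X V hX hV hc
  have hinj : ∀ z : Fin (r - 1) → Fin r, Function.Injective z →
      Function.Injective (Sum.elim z (Fin.elim0 : Fin 0 → Fin r)) := by
    intro z hz
    exact hz.sumElim (fun i => i.elim0) (fun _ j => j.elim0)
  obtain ⟨σ, σ', -, -, hblocks⟩ := orderings_of_chains (k := r - 1) (l := 0) (by omega) (M := M)
    (b := b) (b' := b') (x := Sum.elim x Fin.elim0) (y := Sum.elim y Fin.elim0)
    (hinj x hxi) (hinj y hyi) (fun m hmk => hm m hmk) (fun m hmk hm0 => by omega)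
  refine ⟨σ, σ', fun i => hblocks i (Or.inl ?_)⟩
  have : 0 < r := by
    have := i.isLt
    omega
  have := Nat.mod_lt i.val this
  omega

end Pool.Agent.Gabow87
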