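import Pool.Agent.Gabow87.Sat
import Pool.Agent.Gabow87.R.Long

/-!
# The clauses of the problem for a fixed rank and their meaning
-/

set_option autoImplicit false

namespace Pool.Agent.Gabow87.GR

open Pool.Agent.Gabow87.Sat

/-- Two disjoint bases of rank `r` without a chain of length `r - 1`, with names `ρ 0, ..., ρ (r-1)`
and `ρ r, ..., ρ (2 r - 1)`; there is a chain of length `ch` with the first names. -/
structure Cx (α : Type*) [DecidableEq α] where
  /-- rank -/
  r : ℕ
  /-- length of the given chain -/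
  ch : ℕ
  /-- the names -/
  ρ : ℕ → α
  /-- the family of bases -/
  P : Finset α → Prop
  inj : ∀ i < 2 * r, ∀ j < 2 * r, ρ i = ρ j → i = j
  exch : ∀ S T, P S → P T → ∀ x ∈ S, x ∉ T → ∃ y ∈ T, y ∉ S ∧ P (insert y (S.erase x))
  b0 : P ((Finset.range r).image ρ)
  b1 : P ((Finset.range r).image fun i => ρ (r + i))
  hch : ch ≤ r
  hu : ∀ i < ch, Good P ((Finset.range r).image ρ) ((Finset.range r).image fun i => ρ (r + i))
    ((Finset.range (i + 1)).image ρ) ((Finset.range (i + 1)).image fun i => ρ (r + i))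
  noch : ∀ i < r, ∀ j < r, ∀ m, ¬ GCh P ((Finset.range r).image ρ)
    ((Finset.range r).image fun i => ρ (r + i)) m (((Finset.range r).image ρ).erase (ρ i))
    (((Finset.range r).image fun i => ρ (r + i)).erase (ρ (r + j)))

/-- mark of a name -/
def bt (i : ℕ) : ℕ := Nat.shiftLeft 1 i
/-- `k` ones -/
def full (k : ℕ) : ℕ := Nat.sub (Nat.shiftLeft 1 k) 1
/-- marks of the names in a list -/
noncomputable def msk (l : List ℕ) : ℕ := List.rec 0 (fun e _ m => Nat.lor (bt e) m) l
/-- mark of `B \ X ∪ V` -/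
def so (r I J : ℕ) : ℕ := Nat.lor (Nat.xor (full r) I) (Nat.shiftLeft J r)
/-- mark of `B' \ V ∪ X` -/
def so' (r I J : ℕ) : ℕ := Nat.lor I (Nat.shiftLeft (Nat.xor (full r) J) r)

theorem testBit_bt (i j : ℕ) : (bt i).testBit j = decide (i = j) := testBit_one_shiftLeft' i j

theorem testBit_full (k j : ℕ) : (full k).testBit j = decide (j < k) := by
  have : full k = 2 ^ k - 1 := by
    change (1 <<< k) - 1 = _
    rw [Nat.one_shiftLeft]
  rw [this, Nat.testBit_two_pow_sub_one]

theorem testBit_lor (a b j : ℕ) : (Nat.lor a b).testBit j = (a.testBit j || b.testBit j) :=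
  Nat.testBit_or a b j
theorem testBit_xor' (a b j : ℕ) : (Nat.xor a b).testBit j = (a.testBit j ^^ b.testBit j) :=
  Nat.testBit_xor a b j
theorem testBit_land' (a b j : ℕ) : (Nat.land a b).testBit j = (a.testBit j && b.testBit j) :=
  Nat.testBit_and a b j
theorem testBit_shl (a k j : ℕ) :
    (Nat.shiftLeft a k).testBit j = (decide (k ≤ j) && a.testBit (j - k)) :=
  Nat.testBit_shiftLeft a

theorem msk_cons (e : ℕ) (l : List ℕ) : msk (e :: l) = Nat.lor (bt e) (msk l) := rfl

theorem testBit_msk (l : List ℕ) (j : ℕ) : (msk l).testBit j = true ↔ j ∈ l := by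
  induction l with
  | nil =>
    change (0 : ℕ).testBit j = true ↔ _
    simp
  | cons e l ih =>
    rw [msk_cons, testBit_lor, Bool.or_eq_true, testBit_bt, ih, List.mem_cons]
    simp [eq_comm]

namespace Cx

variable {α : Type*} [DecidableEq α] (c : Cx α)

/-- the first basis -/
def B : Finset α := (Finset.range c.r).image c.ρ
/-- the second basis -/
def B' : Finset α := (Finset.range c.r).image fun i => c.ρ (c.r + i)

/-- the set of the elements whose names are marked by the binary digits of `T` -/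
def nm (T : ℕ) : Finset α :=
  ((Finset.range (2 * c.r)).filter fun i => T.testBit i = true).image c.ρ

theorem mem_nm (T : ℕ) (t : α) : t ∈ c.nm T ↔ ∃ i < 2 * c.r, T.testBit i = true ∧ c.ρ i = t := by
  simp only [nm, Finset.mem_image, Finset.mem_filter, Finset.mem_range]
  constructor
  · rintro ⟨i, ⟨h1, h2⟩, h3⟩; exact ⟨i, h1, h2, h3⟩
  · rintro ⟨i, h1, h2, h3⟩; exact ⟨i, ⟨h1, h2⟩, h3⟩

theorem rho_mem_nm (T : ℕ) {i : ℕ} (hi : i < 2 * c.r) : c.ρ i ∈ c.nm T ↔ T.testBit i = true := by
  rw [mem_nm]
  constructor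
  · rintro ⟨j, hj, h1, h2⟩
    rwa [← c.inj _ hj _ hi h2]
  · intro h; exact ⟨i, hi, h, rfl⟩

theorem nm_zero : c.nm 0 = ∅ := by
  ext t
  rw [mem_nm]
  simp

theorem nm_full : c.nm (full c.r) = c.B := by
  ext t
  rw [mem_nm, B, Finset.mem_image]
  constructor
  · rintro ⟨i, _, h1, h2⟩
    rw [testBit_full, decide_eq_true_eq] at h1
    exact ⟨i, Finset.mem_range.mpr h1, h2⟩
  · rintro ⟨i, h1, h2⟩
    rw [Finset.mem_range] at h1
    exact ⟨i, by omega, by rw [testBit_full, decide_eq_true_eq]; exact h1, h2⟩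

theorem nm_full' : c.nm (Nat.shiftLeft (full c.r) c.r) = c.B' := by
  ext t
  rw [mem_nm, B', Finset.mem_image]
  constructor
  · rintro ⟨i, _, h1, h2⟩
    rw [testBit_shl, testBit_full, Bool.and_eq_true, decide_eq_true_eq, decide_eq_true_eq] at h1
    exact ⟨i - c.r, Finset.mem_range.mpr h1.2, by rw [← h2]; congr 1; omega⟩
  · rintro ⟨i, h1, h2⟩
    rw [Finset.mem_range] at h1
    refine ⟨c.r + i, by omega, ?_, h2⟩
    rw [testBit_shl, testBit_full, Bool.and_eq_true, decide_eq_true_eq, decide_eq_true_eq]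
    omega

/-- the set marked by `I` in the first basis -/
theorem nm_so (I J : ℕ) (hI : Nat.lor I (full c.r) = full c.r)
    (hJ : Nat.lor J (full c.r) = full c.r) :
    c.nm (so c.r I J) = (c.B \ c.nm I) ∪ c.nm (Nat.shiftLeft J c.r) := by
  have hI' : ∀ i, I.testBit i = true → i < c.r := by
    intro i hi
    have : (Nat.lor I (full c.r)).testBit i = true := by
      rw [testBit_lor, hi]; rfl
    rw [hI, testBit_full, decide_eq_true_eq] at this
    exact this
  ext t
  rw [Finset.mem_union, Finset.mem_sdiff, ← nm_full, mem_nm]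
  constructor
  · rintro ⟨i, hi, h1, rfl⟩
    rw [rho_mem_nm c _ hi, rho_mem_nm c _ hi, rho_mem_nm c _ hi]
    unfold so at h1
    rw [testBit_lor, testBit_xor', Bool.or_eq_true, testBit_full] at h1
    rcases h1 with h1 | h1
    · left
      rw [testBit_full]
      cases h2 : I.testBit i with
      | true =>
        have := hI' i h2
        rw [h2] at h1
        simp [this] at h1
      | false =>
        rw [h2] at h1
        exact ⟨by simpa using h1, by simp⟩
    · right; exact h1
  · rintro (⟨h1, h2⟩ | h1)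
    · obtain ⟨i, hi, h3, rfl⟩ := (mem_nm c _ _).mp h1
      rw [rho_mem_nm c _ hi] at h2
      refine ⟨i, hi, ?_, rfl⟩
      unfold so
      rw [testBit_lor, testBit_xor', h3]
      have : I.testBit i = false := by simpa using h2
      rw [this]; rfl
    · obtain ⟨i, hi, h3, rfl⟩ := (mem_nm c _ _).mp h1
      refine ⟨i, hi, ?_, rfl⟩
      unfold so
      rw [testBit_lor, h3, Bool.or_true]

theorem nm_so' (I J : ℕ) (hI : Nat.lor I (full c.r) = full c.r)
    (hJ : Nat.lor J (full c.r) = full c.r) :
    c.nm (so' c.r I J) = (c.B' \ c.nm (Nat.shiftLeft J c.r)) ∪ c.nm I := by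
  have hJ' : ∀ i, J.testBit i = true → i < c.r := by
    intro i hi
    have : (Nat.lor J (full c.r)).testBit i = true := by
      rw [testBit_lor, hi]; rfl
    rw [hJ, testBit_full, decide_eq_true_eq] at this
    exact this
  ext t
  rw [Finset.mem_union, Finset.mem_sdiff, ← nm_full', mem_nm]
  constructor
  · rintro ⟨i, hi, h1, rfl⟩
    rw [rho_mem_nm c _ hi, rho_mem_nm c _ hi, rho_mem_nm c _ hi]
    unfold so' at h1
    rw [testBit_lor, Bool.or_eq_true] at h1
    rcases h1 with h1 | h1
    · right; exact h1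
    · left
      rw [testBit_shl, testBit_xor', Bool.and_eq_true] at h1
      rw [testBit_shl, testBit_shl, Bool.and_eq_true]
      cases h2 : J.testBit (i - c.r) with
      | true =>
        have h3 := hJ' _ h2
        rw [h2, testBit_full] at h1
        simp [h3] at h1
      | false =>
        rw [h2, Bool.xor_false] at h1
        exact ⟨h1, by simp⟩
  · rintro (⟨h1, h2⟩ | h1)
    · obtain ⟨i, hi, h3, rfl⟩ := (mem_nm c _ _).mp h1
      rw [rho_mem_nm c _ hi] at h2
      refine ⟨i, hi, ?_, rfl⟩
      unfold so'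
      rw [testBit_shl, Bool.and_eq_true] at h3
      rw [testBit_shl, Bool.and_eq_true, not_and] at h2
      have : J.testBit (i - c.r) = false := by simpa using h2 h3.1
      rw [testBit_lor, testBit_shl, testBit_xor', h3.1, h3.2, this]
      simp
    · obtain ⟨i, hi, h3, rfl⟩ := (mem_nm c _ _).mp h1
      refine ⟨i, hi, ?_, rfl⟩
      unfold so'
      rw [testBit_lor, h3, Bool.true_or]

theorem nm_or_bt (T i : ℕ) (hi : i < 2 * c.r) : c.nm (Nat.lor (bt i) T) = insert (c.ρ i) (c.nm T) := by
  ext t
  rw [Finset.mem_insert, mem_nm, mem_nm]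
  constructor
  · rintro ⟨j, hj, h1, rfl⟩
    rw [testBit_lor, Bool.or_eq_true, testBit_bt, decide_eq_true_eq] at h1
    rcases h1 with h1 | h1
    · left; rw [h1]
    · right; exact ⟨j, hj, h1, rfl⟩
  · rintro (rfl | ⟨j, hj, h1, rfl⟩)
    · exact ⟨i, hi, by rw [testBit_lor, testBit_bt]; simp, rfl⟩
    · exact ⟨j, hj, by rw [testBit_lor, h1, Bool.or_true], rfl⟩

theorem nm_or (S T : ℕ) : c.nm (Nat.lor S T) = c.nm S ∪ c.nm T := by
  ext t
  rw [Finset.mem_union, mem_nm, mem_nm, mem_nm]
  constructor
  · rintro ⟨j, hj, h1, rfl⟩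
    rw [testBit_lor, Bool.or_eq_true] at h1
    rcases h1 with h1 | h1
    · left; exact ⟨j, hj, h1, rfl⟩
    · right; exact ⟨j, hj, h1, rfl⟩
  · rintro (⟨j, hj, h1, rfl⟩ | ⟨j, hj, h1, rfl⟩)
    · exact ⟨j, hj, by rw [testBit_lor, h1, Bool.true_or], rfl⟩
    · exact ⟨j, hj, by rw [testBit_lor, h1, Bool.or_true], rfl⟩

theorem shl_or_bt (J j : ℕ) : Nat.shiftLeft (Nat.lor (bt j) J) c.r =
    Nat.lor (bt (c.r + j)) (Nat.shiftLeft J c.r) := by
  apply Nat.eq_of_testBit_eq
  intro i
  rw [testBit_shl, testBit_lor, testBit_lor, testBit_bt, testBit_bt, testBit_shl]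
  by_cases h : c.r ≤ i
  · have h1 : (j = i - c.r) ↔ (c.r + j = i) := by omega
    simp only [h, decide_true, Bool.true_and, h1]
  · have h1 : ¬ c.r + j = i := by omega
    simp [h, h1]

/-- meaning of the variables -/
def sem (v : VC) : Prop :=
  (v.k = 0 ∧ c.P (c.nm v.a)) ∨
  (v.k = 1 ∧ ∃ m, GCh c.P c.B c.B' m (c.nm v.a) (c.nm (Nat.shiftLeft v.b c.r)))

end Cx

/-- variable: the set with mark `T` is a base -/
def vP (T : ℕ) : VC := ⟨0, T, 0, 0⟩
/-- variable: there is a chain -/
def vR (I J : ℕ) : VC := ⟨1, I, J, 0⟩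

namespace Cx

variable {α : Type*} [DecidableEq α] (c : Cx α)

theorem sem_vP (T : ℕ) : c.sem (vP T) ↔ c.P (c.nm T) := by simp [sem, vP]

theorem sem_vR (I J : ℕ) : c.sem (vR I J) ↔
    ∃ m, GCh c.P c.B c.B' m (c.nm I) (c.nm (Nat.shiftLeft J c.r)) := by
  simp [sem, vR]

end Cx

/-- the kinds of axiom clauses -/
inductive Ax where
  | b0
  | b1
  | u0 (i : ℕ)
  | u1 (i : ℕ)
  | ex (C x : ℕ) (ds ys : List ℕ)
  | r0
  | gd (I J i j : ℕ)
  | no (i j : ℕ)

/-- `a < b` -/
def lt (a b : ℕ) : Bool := Nat.ble (Nat.succ a) b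
theorem lt_iff {a b : ℕ} : lt a b = true ↔ a < b := by
  unfold lt; rw [Nat.ble_eq]; exact Iff.rfl

/-- side conditions -/
noncomputable def valid (r ch : ℕ) : Ax → Bool
  | .b0 => true
  | .b1 => true
  | .u0 i => lt i ch
  | .u1 i => lt i ch
  | .ex C x ds ys => lt x (Nat.mul 2 r) &&
      Nat.beq (Nat.land (bt x) (Nat.lor C (Nat.lor (msk ds) (msk ys)))) 0
  | .r0 => true
  | .gd I J i j => lt i r && lt j r && Nat.beq (Nat.land (bt i) I) 0 &&
      Nat.beq (Nat.land (bt j) J) 0 && Nat.beq (Nat.lor I (full r)) (full r) &&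
      Nat.beq (Nat.lor J (full r)) (full r)
  | .no i j => lt i r && lt j r

/-- positive literals -/
noncomputable def pl (T : ℕ) (ys : List ℕ) : List (Bool × VC) :=
  List.rec [] (fun y _ l => (true, vP (Nat.lor (bt y) T)) :: l) ys

/-- the literals -/
noncomputable def expd (r : ℕ) : Ax → List (Bool × VC)
  | .b0 => [(true, vP (full r))]
  | .b1 => [(true, vP (Nat.shiftLeft (full r) r))]
  | .u0 i => [(true, vP (so r (full (Nat.succ i)) (full (Nat.succ i))))]
  | .u1 i => [(true, vP (so' r (full (Nat.succ i)) (full (Nat.succ i))))]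
  | .ex C x ds ys => (false, vP (Nat.lor (bt x) (Nat.lor C (msk ds)))) ::
      (false, vP (Nat.lor C (msk ys))) :: pl (Nat.lor C (msk ds)) ys
  | .r0 => [(true, vR 0 0)]
  | .gd I J i j => [(false, vR I J), (false, vP (so r (Nat.lor (bt i) I) (Nat.lor (bt j) J))),
      (false, vP (so' r (Nat.lor (bt i) I) (Nat.lor (bt j) J))),
      (true, vR (Nat.lor (bt i) I) (Nat.lor (bt j) J))]
  | .no i j => [(false, vR (Nat.xor (full r) (bt i)) (Nat.xor (full r) (bt j)))]

/-- truth of a literal -/
def Cx.tr {α : Type*} [DecidableEq α] (c : Cx α) (p : Bool × VC) : Prop :=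
  (p.1 = true ∧ c.sem p.2) ∨ (p.1 = false ∧ ¬ c.sem p.2)

section

variable {α : Type*} [DecidableEq α] (c : Cx α)

theorem tr_true (v : VC) : c.tr (true, v) ↔ c.sem v := by simp [Cx.tr]
theorem tr_false (v : VC) : c.tr (false, v) ↔ ¬ c.sem v := by simp [Cx.tr]

theorem exists_cons (p : Bool × VC) (l : List (Bool × VC)) :
    (∃ q ∈ p :: l, c.tr q) ↔ c.tr p ∨ ∃ q ∈ l, c.tr q := by simp

theorem exists_nil : (∃ q ∈ ([] : List (Bool × VC)), c.tr q) ↔ False := by simp

theorem pl_sound (T : ℕ) (ys : List ℕ) (y : ℕ) (hy : y ∈ ys) (h : c.P (c.nm (Nat.lor (bt y) T))) :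
    ∃ q ∈ pl T ys, c.tr q := by
  induction ys with
  | nil => simp at hy
  | cons z ys ih =>
    change ∃ q ∈ (true, vP (Nat.lor (bt z) T)) :: pl T ys, c.tr q
    rw [exists_cons, tr_true, Cx.sem_vP]
    rcases List.mem_cons.mp hy with rfl | hy
    · exact Or.inl h
    · exact Or.inr (ih hy)

theorem full_lor (i : ℕ) (hi : i < c.r) : Nat.lor (full (Nat.succ i)) (full c.r) = full c.r := by
  apply Nat.eq_of_testBit_eq
  intro j
  rw [testBit_lor, testBit_full, testBit_full, ← Bool.decide_or]
  congr 1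
  rw [eq_iff_iff]
  omega

theorem nm_full_succ (i : ℕ) (hi : i < c.r) :
    c.nm (full (Nat.succ i)) = (Finset.range (i + 1)).image c.ρ := by
  ext t
  rw [c.mem_nm, Finset.mem_image]
  constructor
  · rintro ⟨j, _, h1, h2⟩
    rw [testBit_full, decide_eq_true_eq] at h1
    exact ⟨j, Finset.mem_range.mpr h1, h2⟩
  · rintro ⟨j, h1, h2⟩
    rw [Finset.mem_range] at h1
    exact ⟨j, by omega, by rw [testBit_full, decide_eq_true_eq]; exact h1, h2⟩

theorem nm_full_succ' (i : ℕ) (hi : i < c.r) :
    c.nm (Nat.shiftLeft (full (Nat.succ i)) c.r) =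
      (Finset.range (i + 1)).image fun j => c.ρ (c.r + j) := by
  ext t
  rw [c.mem_nm, Finset.mem_image]
  constructor
  · rintro ⟨j, _, h1, h2⟩
    rw [testBit_shl, testBit_full, Bool.and_eq_true, decide_eq_true_eq, decide_eq_true_eq] at h1
    exact ⟨j - c.r, Finset.mem_range.mpr h1.2, by rw [← h2]; congr 1; omega⟩
  · rintro ⟨j, h1, h2⟩
    rw [Finset.mem_range] at h1
    refine ⟨c.r + j, by omega, ?_, h2⟩
    rw [testBit_shl, testBit_full, Bool.and_eq_true, decide_eq_true_eq, decide_eq_true_eq]
    omega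

theorem testBit_of_land {i I : ℕ} (h : Nat.land (bt i) I = 0) : I.testBit i = false := by
  have h1 : (Nat.land (bt i) I).testBit i = false := by rw [h]; simp
  rw [testBit_land', testBit_bt] at h1
  simpa using h1

theorem ax_sound (ax : Ax) (hv : valid c.r c.ch ax = true) : ∃ p ∈ expd c.r ax, c.tr p := by
  have hchr := c.hch
  cases ax with
  | b0 =>
    rw [expd, exists_cons, tr_true, Cx.sem_vP, c.nm_full]
    exact Or.inl c.b0
  | b1 =>
    rw [expd, exists_cons, tr_true, Cx.sem_vP, c.nm_full']
    exact Or.inl c.b1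
  | u0 i =>
    simp only [valid, lt_iff] at hv
    rw [expd, exists_cons, tr_true, Cx.sem_vP,
      c.nm_so _ _ (full_lor c i (by omega)) (full_lor c i (by omega)),
      nm_full_succ c i (by omega), nm_full_succ' c i (by omega)]
    exact Or.inl (c.hu i hv).1
  | u1 i =>
    simp only [valid, lt_iff] at hv
    rw [expd, exists_cons, tr_true, Cx.sem_vP,
      c.nm_so' _ _ (full_lor c i (by omega)) (full_lor c i (by omega)),
      nm_full_succ c i (by omega), nm_full_succ' c i (by omega)]
    exact Or.inl (c.hu i hv).2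
  | ex C x ds ys =>
    simp only [valid, Bool.and_eq_true, lt_iff] at hv
    obtain ⟨hx, hz⟩ := hv
    have hx' : x < 2 * c.r := hx
    have hz' := testBit_of_land (Nat.eq_of_beq_eq_true hz)
    rw [testBit_lor, testBit_lor, Bool.or_eq_false_iff, Bool.or_eq_false_iff] at hz'
    rw [expd, exists_cons, exists_cons, tr_false, tr_false, Cx.sem_vP, Cx.sem_vP]
    by_cases h1 : c.P (c.nm (Nat.lor (bt x) (Nat.lor C (msk ds))))
    · by_cases h2 : c.P (c.nm (Nat.lor C (msk ys)))
      · right; right
        rw [c.nm_or_bt _ _ hx'] at h1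
        have hxn : c.ρ x ∉ c.nm (Nat.lor C (msk ds)) := by
          rw [c.rho_mem_nm _ hx', testBit_lor, hz'.1, hz'.2.1]; simp
        have hxn' : c.ρ x ∉ c.nm (Nat.lor C (msk ys)) := by
          rw [c.rho_mem_nm _ hx', testBit_lor, hz'.1, hz'.2.2]; simp
        obtain ⟨e, he, heS, h3⟩ := c.exch _ _ h1 h2 _ (Finset.mem_insert_self _ _) hxn'
        rw [Finset.erase_insert hxn] at h3
        rw [c.nm_or, Finset.mem_union] at he
        rw [Finset.mem_insert, c.nm_or, Finset.mem_union] at heS
        push Not at heS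
        have he' := he.resolve_left heS.2.1
        obtain ⟨y, hy, hyb, rfl⟩ := (c.mem_nm _ _).mp he'
        rw [testBit_msk] at hyb
        exact pl_sound c _ _ y hyb (by rw [c.nm_or_bt _ _ hy]; exact h3)
      · right; left; exact h2
    · left; exact h1
  | r0 =>
    rw [expd, exists_cons, tr_true, Cx.sem_vR]
    left
    refine ⟨0, ?_, ?_⟩
    · exact c.nm_zero
    · have : Nat.shiftLeft 0 c.r = 0 := Nat.zero_shiftLeft _
      rw [this]
      exact c.nm_zero
  | gd I J i j =>
    simp only [valid, Bool.and_eq_true, lt_iff] at hv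
    obtain ⟨⟨⟨⟨⟨hi, hj⟩, hI⟩, hJ⟩, hIf⟩, hJf⟩ := hv
    have hI := testBit_of_land (Nat.eq_of_beq_eq_true hI)
    have hJ := testBit_of_land (Nat.eq_of_beq_eq_true hJ)
    have hIf := Nat.eq_of_beq_eq_true hIf
    have hJf := Nat.eq_of_beq_eq_true hJf
    have key : ∀ (i I : ℕ), i < c.r → Nat.lor I (full c.r) = full c.r →
        Nat.lor (Nat.lor (bt i) I) (full c.r) = full c.r := by
      intro i I hi hI
      apply Nat.eq_of_testBit_eq
      intro j
      have h1 : (Nat.lor I (full c.r)).testBit j = (full c.r).testBit j := by rw [hI]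
      rw [testBit_lor, testBit_full] at h1
      rw [testBit_lor, testBit_lor, testBit_full, testBit_bt, Bool.or_assoc, h1, ← Bool.decide_or]
      congr 1
      rw [eq_iff_iff]
      omega
    simp only [expd, exists_cons, exists_nil, tr_true, tr_false, Cx.sem_vP, Cx.sem_vR,
      c.nm_so _ _ (key i I hi hIf) (key j J hj hJf), c.nm_so' _ _ (key i I hi hIf) (key j J hj hJf),
      c.shl_or_bt, c.nm_or_bt I i (by omega),
      c.nm_or_bt (Nat.shiftLeft J c.r) (c.r + j) (by omega)]
    by_cases h1 : ∃ m, GCh c.P c.B c.B' m (c.nm I) (c.nm (Nat.shiftLeft J c.r))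
    · by_cases h2 : c.P ((c.B \ insert (c.ρ i) (c.nm I)) ∪
          insert (c.ρ (c.r + j)) (c.nm (Nat.shiftLeft J c.r)))
      · by_cases h3 : c.P ((c.B' \ insert (c.ρ (c.r + j)) (c.nm (Nat.shiftLeft J c.r))) ∪
            insert (c.ρ i) (c.nm I))
        · right; right; right; left
          obtain ⟨m, hm⟩ := h1
          refine ⟨m + 1, ⟨h2, h3⟩, c.ρ i, Finset.mem_insert_self _ _, c.ρ (c.r + j),
            Finset.mem_insert_self _ _, ?_⟩
          rw [Finset.erase_insert, Finset.erase_insert]
          · exact hm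
          · rw [c.rho_mem_nm _ (by omega), testBit_shl]
            have : c.r + j - c.r = j := by omega
            rw [this, hJ]
            simp
          · rw [c.rho_mem_nm _ (by omega), hI]
            simp
        · right; right; left; exact h3
      · right; left; exact h2
    · left; exact h1
  | no i j =>
    simp only [valid, Bool.and_eq_true, lt_iff] at hv
    obtain ⟨hi, hj⟩ := hv
    rw [expd, exists_cons, tr_false, Cx.sem_vR]
    left
    rintro ⟨m, hm⟩
    have e1 : c.nm (Nat.xor (full c.r) (bt i)) = c.B.erase (c.ρ i) := by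
      ext t
      rw [Finset.mem_erase, ← c.nm_full, c.mem_nm, c.mem_nm]
      constructor
      · rintro ⟨k, hk, h1, rfl⟩
        rw [testBit_xor', testBit_full, testBit_bt] at h1
        by_cases hki : i = k
        · subst hki
          simp [hi] at h1
        · refine ⟨fun h => hki (c.inj _ (by omega) _ hk h.symm), k, hk, ?_, rfl⟩
          rw [testBit_full]
          simpa [hki] using h1
      · rintro ⟨h1, k, hk, h2, rfl⟩
        refine ⟨k, hk, ?_, rfl⟩
        have hki : i ≠ k := fun h => h1 (by rw [h])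
        rw [testBit_xor', h2, testBit_bt]
        simp [hki]
    have e2 : c.nm (Nat.shiftLeft (Nat.xor (full c.r) (bt j)) c.r) =
        c.B'.erase (c.ρ (c.r + j)) := by
      ext t
      rw [Finset.mem_erase, ← c.nm_full', c.mem_nm, c.mem_nm]
      constructor
      · rintro ⟨k, hk, h1, rfl⟩
        rw [testBit_shl, testBit_xor', testBit_full, testBit_bt, Bool.and_eq_true,
          decide_eq_true_eq] at h1
        by_cases hki : j = k - c.r
        · have h2 := h1.2
          rw [← hki] at h2
          simp [hj] at h2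
        · refine ⟨fun h => hki ?_, k, hk, ?_, rfl⟩
          · have := c.inj _ hk _ (by omega) h
            omega
          · rw [testBit_shl, testBit_full, Bool.and_eq_true, decide_eq_true_eq]
            refine ⟨h1.1, ?_⟩
            simpa [hki] using h1.2
      · rintro ⟨h1, k, hk, h2, rfl⟩
        rw [testBit_shl, testBit_full, Bool.and_eq_true, decide_eq_true_eq,
          decide_eq_true_eq] at h2
        refine ⟨k, hk, ?_, rfl⟩
        have hki : ¬ j = k - c.r := fun h => h1 (by rw [h]; congr 1; omega)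
        rw [testBit_shl, testBit_xor', testBit_full, testBit_bt]
        simp [hki, h2]
    rw [e1, e2] at hm
    exact c.noch i hi j hj m hm

end

theorem pl_length (T : ℕ) (ys : List ℕ) : (pl T ys).length = ys.length := by
  induction ys with
  | nil => rfl
  | cons y ys ih =>
    change ((true, vP (Nat.lor (bt y) T)) :: pl T ys).length = _
    rw [List.length_cons, List.length_cons, ih]

/-- the length of the clause is small -/
noncomputable def short : Ax → Bool
  | .ex _ _ _ ys => Nat.ble ys.length 60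
  | _ => true

theorem expd_length (r : ℕ) (ax : Ax) (h : short ax = true) : (expd r ax).length ≤ 64 := by
  cases ax with
  | ex C x ds ys =>
    simp only [short] at h
    have h' := Nat.le_of_ble_eq_true h
    simp only [expd, List.length_cons, pl_length]
    omega
  | _ => simp only [expd, List.length_cons, List.length_nil]; omega

/-- checks axiom clauses with numbers from `s` to `e` -/
noncomputable def axchk (r ch : ℕ) (vt : ℕ → VC) (G : ℕ → ℕ) (L : List Ax)
    (e : ℕ) : ℕ → Bool :=
  List.rec (fun i => Nat.beq i e)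
    (fun ax _ ih i => cond (valid r ch ax && short ax)
      (cond (same vt (expd r ax) (G i)) (force (Nat.succ i) ih) false) false) L

/-- the clauses with numbers between `s` and `e` are satisfied -/
def AllSat (v : ℕ → Prop) (G : ℕ → ℕ) (s e : ℕ) : Prop :=
  ∀ i, s ≤ i → i < e → SatM v (mask 64 (G i))

theorem AllSat.trans {v : ℕ → Prop} {G : ℕ → ℕ} {s m e : ℕ} (h1 : AllSat v G s m)
    (h2 : AllSat v G m e) : AllSat v G s e := fun i hi hi' => by
  rcases Nat.lt_or_ge i m with h | h
  · exact h1 i hi h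
  · exact h2 i h hi'

theorem axchk_sound {α : Type*} [DecidableEq α] (c : Cx α) {r ch : ℕ}
    (hr : c.r = r) (hch : c.ch = ch) (vt : ℕ → VC) (G : ℕ → ℕ) (L : List Ax) (e : ℕ) :
    ∀ s, axchk r ch vt G L e s = true → AllSat (fun i => c.sem (vt i)) G s e := by
  induction L with
  | nil =>
    intro s h i hi hi'
    have : s = e := Nat.eq_of_beq_eq_true h
    omega
  | cons ax L ih =>
    intro s h i hi hi'
    change cond (valid r ch ax && short ax)
      (cond (same vt (expd r ax) (G s)) (force (Nat.succ s) (axchk r ch vt G L e)) false)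
        false = true at h
    rw [force_eq] at h
    cases h1 : (valid r ch ax && short ax) with
    | false => rw [h1] at h; exact absurd h (by simp)
    | true =>
      rw [h1, cond_true] at h
      rw [Bool.and_eq_true] at h1
      cases h2 : same vt (expd r ax) (G s) with
      | false => rw [h2] at h; exact absurd h (by simp)
      | true =>
        rw [h2, cond_true] at h
        rcases Nat.lt_or_ge s i with h3 | h3
        · exact ih (s + 1) h i h3 hi'
        · have : i = s := by omega
          subst this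
          have h4 := ax_sound c ax (by rw [hr, hch]; exact h1.1)
          rw [hr] at h4
          exact same_sound vt c.sem _ _ _ (expd_length r ax h1.2) h2 h4

theorem chk_sound' {v : ℕ → Prop} {G H : ℕ → ℕ} {cnt s e : ℕ} (h : chk G H cnt s = true)
    (he : s + cnt = e) (h0 : AllSat v G 0 s) : AllSat v G 0 e := fun i _ hi => by
  subst he
  exact chk_sound v G H cnt s h (fun j hj => h0 j (Nat.zero_le _) hj) i hi

theorem AllSat.false {v : ℕ → Prop} {G : ℕ → ℕ} {e : ℕ} (h : AllSat v G 0 (e + 1))
    (he : G e = 0) : False := no_sat_zero v G e he (h e (Nat.zero_le _) (Nat.lt_succ_self _))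

end Pool.Agent.Gabow87.GR
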